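import Pool.Agent.Lib.MP_6bc8af_co.Mg.G011

/-! TASK LB T09b of MP_6bc8af_co: packing of the beads (natural numbers only). -/

set_option autoImplicit false

namespace LB

/-- Packing.
PROOF. Strong induction on `y` (for fixed `x`). Let `y'` be the greatest element of `T` with `x ≤ y' < y` (`x` is one). If `y' = x` the filter is `{x, y}` and
`200 * r x < y - x`, `200 * r y < y - x` give the claim. Otherwise the sum for `y` is the sum for `y'` plus `r y`, and `100 * (sum for y') ≤ y' - x`, `200 * r y < y - y'`. -/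
theorem pack (T : Finset ℕ) (r : ℕ → ℕ)
    (h4 : ∀ u ∈ T, ∀ u' ∈ T, u < u' → u + 200 * r u < u' ∧ u + 200 * r u' < u') {x y : ℕ} (hx : x ∈ T) (hy : y ∈ T)
    (hxy : x < y) : 100 * ∑ u ∈ T.filter (fun u => x ≤ u ∧ u ≤ y), r u ≤ y - x := by
  classical
  induction y using Nat.strong_induction_on with
  | _ y ih =>
    have hxy4 := h4 x hx y hy hxy
    -- the greatest element of `T` in `[x, y)`
    have hne : (T.filter (fun u => x ≤ u ∧ u < y)).Nonempty :=
      ⟨x, by rw [Finset.mem_filter]; exact ⟨hx, le_refl x, hxy⟩⟩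
    obtain ⟨z, hz, hzmax⟩ := Finset.exists_max_image _ id hne
    rw [Finset.mem_filter] at hz
    obtain ⟨hzT, hxz, hzy⟩ := hz
    have hzmax' : ∀ u ∈ T, x ≤ u → u < y → u ≤ z := fun u hu h1 h2 =>
      hzmax u (by rw [Finset.mem_filter]; exact ⟨hu, h1, h2⟩)
    have hfil : T.filter (fun u => x ≤ u ∧ u ≤ y) =
        insert y (T.filter (fun u => x ≤ u ∧ u ≤ z)) := by
      ext u
      rw [Finset.mem_insert, Finset.mem_filter, Finset.mem_filter]
      constructor
      · rintro ⟨h1, h2, h3⟩
        rcases Nat.eq_or_lt_of_le h3 with h | h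
        · exact Or.inl h
        · exact Or.inr ⟨h1, h2, hzmax' u h1 h2 h⟩
      · rintro (h | ⟨h1, h2, h3⟩)
        · subst h
          exact ⟨hy, hxy.le, le_refl _⟩
        · exact ⟨h1, h2, by omega⟩
    have hnot : y ∉ T.filter (fun u => x ≤ u ∧ u ≤ z) := by
      rw [Finset.mem_filter]
      omega
    rw [hfil, Finset.sum_insert hnot]
    have hzy4 := h4 z hzT y hy hzy
    rcases Nat.eq_or_lt_of_le hxz with h | h
    · have hone : T.filter (fun u => x ≤ u ∧ u ≤ z) = {x} := by
        ext u
        rw [Finset.mem_filter, Finset.mem_singleton]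
        constructor
        · rintro ⟨_, h2, h3⟩
          omega
        · intro h5
          subst h5
          exact ⟨hx, le_refl _, hxz⟩
      rw [hone, Finset.sum_singleton]
      omega
    · have h5 := ih z hzy hzT h
      omega

end LB
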