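import Pool.Agent.Lib.MP_6bc8af_co.LB.T09b

/-! TASK LB T09c of MP_6bc8af_co: weight coming from the left (natural numbers only). -/

set_option autoImplicit false

namespace LB

/-- The weight of one index of the cycle coming from the beads on one side.
PROOF. If the filter `F = T.filter (fun u => u < b ∧ 0 < w u i)` is empty the sum of the `w u i` over `u < b` is `0`. Otherwise let `x` be its least element. The sum over
`u ∈ T`, `u < b` of `w u i` is the sum over `F` (the other terms vanish), at most `∑ u ∈ F, r u ≤ ∑ u ∈ T.filter (x ≤ u ∧ u ≤ b), r u =: R`, and `100 R ≤ b - x` by `pack`. By `h3` for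
`x`, `b`: `b ≤ x + D + 25 r x + 25 r b` with `D = cd L i j`, and `200 r x < b - x`, `200 r b < b - x`, so `3 (b - x) ≤ 4 D` and `75 R ≤ D`. -/
theorem side_left (T : Finset ℕ) (r : ℕ → ℕ) (w : ℕ → ℕ → ℕ) (L : ℕ)
    (h1 : ∀ u ∈ T, ∀ i, w u i ≤ r u)
    (h3 : ∀ u ∈ T, ∀ u' ∈ T, u ≠ u' → ∀ i j, i ≠ j → 0 < w u i → 0 < w u' j →
      u' ≤ u + cd L i j + 25 * r u + 25 * r u' ∧ u ≤ u' + cd L i j + 25 * r u + 25 * r u')
    (h4 : ∀ u ∈ T, ∀ u' ∈ T, u < u' → u + 200 * r u < u' ∧ u + 200 * r u' < u') {b i j : ℕ} (hb : b ∈ T)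
    (hij : i ≠ j) (hj : 0 < w b j) : 75 * ∑ u ∈ T.filter (fun u => u < b), w u i ≤ cd L i j := by
  classical
  have hsum : ∑ u ∈ T.filter (fun u => u < b), w u i =
      ∑ u ∈ T.filter (fun u => u < b ∧ 0 < w u i), w u i := by
    symm
    refine Finset.sum_subset (fun u hu => ?_) (fun u hu hu' => ?_)
    · rw [Finset.mem_filter] at hu ⊢
      exact ⟨hu.1, hu.2.1⟩
    · rw [Finset.mem_filter] at hu hu'
      by_contra h0
      exact hu' ⟨hu.1, hu.2, Nat.pos_of_ne_zero h0⟩
  rw [hsum]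
  by_cases hne : (T.filter (fun u => u < b ∧ 0 < w u i)).Nonempty
  · obtain ⟨x, hx, hxmin⟩ := Finset.exists_min_image _ id hne
    rw [Finset.mem_filter] at hx
    obtain ⟨hxT, hxb, hxw⟩ := hx
    have hle : ∑ u ∈ T.filter (fun u => u < b ∧ 0 < w u i), w u i ≤
        ∑ u ∈ T.filter (fun u => x ≤ u ∧ u ≤ b), r u := by
      calc ∑ u ∈ T.filter (fun u => u < b ∧ 0 < w u i), w u i
          ≤ ∑ u ∈ T.filter (fun u => u < b ∧ 0 < w u i), r u :=
            Finset.sum_le_sum fun u hu => h1 u (Finset.mem_filter.1 hu).1 i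
        _ ≤ _ := by
          refine Finset.sum_le_sum_of_subset fun u hu => ?_
          have h5 := hxmin u hu
          rw [Finset.mem_filter] at hu ⊢
          exact ⟨hu.1, h5, hu.2.1.le⟩
    have hp := pack T r h4 hxT hb hxb
    have h5 := h4 x hxT b hb hxb
    have h6 := h3 x hxT b hb (by omega) i j hij hxw hj
    omega
  · rw [Finset.not_nonempty_iff_eq_empty] at hne
    rw [hne, Finset.sum_empty]
    omega

end LB
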