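import Pool.Agent.Lib.MP_6bc8af_co.Mg.G014
import Pool.Agent.Lib.MP_6bc8af_co.LB.T09c
import Pool.Agent.Lib.MP_6bc8af_co.LB.T09d

/-! TASK LB T09e of MP_6bc8af_co: total weight (natural numbers only). -/

set_option autoImplicit false

namespace LB

/-- **Total weight.**
PROOF. Let `W i = ∑ u ∈ T, w u i`; the double sum is `∑ i ∈ range L, W i` (`Finset.sum_comm`). `cyc_sum` for `W`: `hpos`: `0 < W i` gives `u ∈ T` with `0 < w u i`, so `i < L`;
`h2` from `h5` (a term is at most the sum); `hW`: let `i ≠ j`, `0 < W i`, `0 < W j` and `b ∈ T` with `0 < w b j`. Split `W i` in the parts `u < b`, `u = b`, `b < u`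
(`Finset.sum_filter`s, or `T = T.filter (· < b) ∪ {b} ∪ T.filter (b < ·)`): the side parts are at most `cd L i j / 75` by `side_left`, `side_right`, and `w b i ≤ 2 * cd L i j`
(if `0 < w b i` by `h2w`, otherwise trivial). So `W i ≤ 3 * cd L i j` (`omega`). -/
theorem sum_wt (T : Finset ℕ) (r : ℕ → ℕ) (w : ℕ → ℕ → ℕ) (L : ℕ)
    (h0 : ∀ u ∈ T, ∀ i, 0 < w u i → i < L)
    (h1 : ∀ u ∈ T, ∀ i, w u i ≤ r u)
    (h2w : ∀ u ∈ T, ∀ i j, i ≠ j → 0 < w u i → 0 < w u j → w u i ≤ 2 * cd L i j)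
    (h3 : ∀ u ∈ T, ∀ u' ∈ T, u ≠ u' → ∀ i j, i ≠ j → 0 < w u i → 0 < w u' j →
      u' ≤ u + cd L i j + 25 * r u + 25 * r u' ∧ u ≤ u' + cd L i j + 25 * r u + 25 * r u')
    (h4 : ∀ u ∈ T, ∀ u' ∈ T, u < u' → u + 200 * r u < u' ∧ u + 200 * r u' < u')
    (h5 : ∃ u ∈ T, ∃ i j, i ≠ j ∧ 0 < w u i ∧ 0 < w u j) :
    ∑ u ∈ T, ∑ i ∈ Finset.range L, w u i ≤ 3 * L := by
  rw [Finset.sum_comm]
  have hex : ∀ i, 0 < ∑ u ∈ T, w u i → ∃ u ∈ T, 0 < w u i := by
    intro i hi
    by_contra hcon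
    push Not at hcon
    have h : ∑ u ∈ T, w u i = 0 := Finset.sum_eq_zero fun u hu => by
      have := hcon u hu
      omega
    omega
  have hge : ∀ i, ∀ u ∈ T, w u i ≤ ∑ u ∈ T, w u i := fun i u hu =>
    Finset.single_le_sum (f := fun u => w u i) (fun _ _ => Nat.zero_le _) hu
  apply cyc_sum L (fun i => ∑ u ∈ T, w u i)
  · intro i hi
    obtain ⟨u, hu, hui⟩ := hex i hi
    exact h0 u hu i hui
  · obtain ⟨u, hu, i, j, hij, hi, hj⟩ := h5
    exact ⟨i, j, hij, lt_of_lt_of_le hi (hge i u hu), lt_of_lt_of_le hj (hge j u hu)⟩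
  · intro i j hij hi hj
    obtain ⟨b, hb, hbj⟩ := hex j hj
    have hsplit : ∑ u ∈ T, w u i = ∑ u ∈ T.filter (fun u => u < b), w u i + w b i +
        ∑ u ∈ T.filter (fun u => b < u), w u i := by
      rw [Finset.sum_filter, Finset.sum_filter]
      have h1 : w b i = ∑ u ∈ T, if u = b then w u i else 0 := by
        rw [Finset.sum_ite_eq' T b (fun u => w u i), if_pos hb]
      rw [h1, ← Finset.sum_add_distrib, ← Finset.sum_add_distrib]
      refine Finset.sum_congr rfl fun u _ => ?_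
      rcases lt_trichotomy u b with h | h | h
      · rw [if_pos h, if_neg h.ne, if_neg (by omega)]
        omega
      · rw [if_neg (by omega), if_pos h, if_neg (by omega)]
        omega
      · rw [if_neg (by omega), if_neg (by omega), if_pos h]
        omega
    have hl := side_left T r w L h1 h3 h4 hb hij hbj
    have hr := side_right T r w L h1 h3 h4 hb hij hbj
    have hm : w b i ≤ 2 * cd L i j := by
      rcases Nat.eq_zero_or_pos (w b i) with h | h
      · omega
      · exact h2w b hb i j hij h hbj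
    rw [hsplit]
    omega

end LB
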