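import Pool.Agent.Lib.MP_6bc8af_co.Mg.G013
import Pool.Agent.Lib.MP_6bc8af_co.Mg.G015
import Pool.Agent.Lib.MP_6bc8af_co.LB.T09e

/-! TASK LB T10 of MP_6bc8af_co: from the beads to the bound. -/

set_option autoImplicit false

open Classical

namespace LB

universe u

private theorem T10_mem_att {V : Type u} {G : SimpleGraph V} {L : ℕ} {c : ℕ → V} {K : Set V} {i : ℕ}
    (h : i ∈ att G L c K) : i < L := by
  unfold att at h
  rw [Finset.mem_filter, Finset.mem_range] at h
  exact h.1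

private theorem T10_cd_comm (L i j : ℕ) : cd L i j = cd L j i := by
  unfold cd
  rw [max_comm i j, min_comm i j]

/-- PROOF. `bead_wt` gives `w u` for every `u ∈ T` (choose; `w u = 0` for `u ∉ T`). `sum_wt` for `T`, `r`, `w`: `h0` by `att ⊆ range L`; `h1`: `w u i ≤ z u ≤ r u` (`IsBead`);
`h2w` from `IsWt`; `h3`: `bead_cross` and `bead_cross` with the roles of the beads exchanged (`cd L i j = cd L j i`: `max_comm`, `min_comm`); `h4` is `hsep`; `h5`: take `u ∈ T`
(nonempty). If at most one index had positive weight, `∑ i ∈ range L, w u i ≤ z u` while `z u * k ≤ 4 * (this sum) ≤ 4 * z u`, impossible as `z u ≥ 1`, `k ≥ 44`. (E.g. some `i` has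
`0 < w u i`, as the sum is positive; if all other weights vanish, the sum is `w u i ≤ z u`: `Finset.sum_eq_single`.)
Then `∑ u ∈ T, ∑ i, w u i ≤ 3 L`. For `u ∈ T`: `r u * k ≤ 1200 * z u * k ≤ 4800 * ∑ i, w u i`. Hence
`k * a ≤ k * (401 * ∑ u ∈ T, r u) = 401 * ∑ u ∈ T, r u * k ≤ 401 * 4800 * (3 L) = 5774400 * L`. -/
theorem bound_of_beads {V : Type u} [Fintype V] {G : SimpleGraph V} {k L : ℕ} {c : ℕ → V} (hG : LC.IsKConn G k)
    (hk : 44 ≤ k) (hC : Longest G L c) {a : ℕ} {p : ℕ → V} (hp : IsOffPath G L c a p) (T : Finset ℕ)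
    (r z : ℕ → ℕ) (K : ℕ → Set V) (hT : T.Nonempty) (hb : ∀ u ∈ T, IsBead G L c a p u (r u) (K u) (z u))
    (hd : ∀ u ∈ T, ∀ u' ∈ T, u ≠ u' → ∀ v ∈ K u, v ∉ K u')
    (hsep : ∀ u ∈ T, ∀ u' ∈ T, u < u' → u + 200 * r u < u' ∧ u + 200 * r u' < u')
    (hsum : a ≤ 401 * ∑ u ∈ T, r u) : k * a ≤ 5774400 * L := by
  choose! w hw using fun u (hu : u ∈ T) => bead_wt hG hk hC (hb u hu)
  have h5 : ∃ u ∈ T, ∃ i j, i ≠ j ∧ 0 < w u i ∧ 0 < w u j := by
    obtain ⟨u, hu⟩ := hT
    refine ⟨u, hu, ?_⟩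
    by_contra hcon
    push Not at hcon
    have hz : 1 ≤ z u := (hb u hu).1
    have h1 := (hw u hu).2.2.1
    have h2 : ∑ i ∈ Finset.range L, w u i ≤ z u := by
      by_cases hex : ∃ i, 0 < w u i
      · obtain ⟨i, hi⟩ := hex
        have hiL : i < L := T10_mem_att ((hw u hu).2.1 i hi)
        rw [Finset.sum_eq_single_of_mem i (Finset.mem_range.2 hiL)]
        · exact (hw u hu).1 i
        · intro j _ hji
          have := hcon i j (Ne.symm hji) hi
          omega
      · push Not at hex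
        rw [Finset.sum_eq_zero]
        · omega
        · intro i _
          have := hex i
          omega
    have h3 : z u * 44 ≤ z u * k := Nat.mul_le_mul_left _ hk
    omega
  have hsum3 := sum_wt T r w L
    (fun u hu i hi => T10_mem_att ((hw u hu).2.1 i hi))
    (fun u hu i => le_trans ((hw u hu).1 i) (hb u hu).2.1)
    (fun u hu i j hij hi hj => (hw u hu).2.2.2 i j hij hi hj)
    (fun u hu u' hu' hne i j hij hi hj => by
      have e1 := bead_cross hC hp (hb u hu) (hb u' hu') (hd u hu u' hu' hne) hij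
        ((hw u hu).2.1 i hi) ((hw u' hu').2.1 j hj)
      have e2 := bead_cross hC hp (hb u' hu') (hb u hu) (hd u' hu' u hu (Ne.symm hne)) (Ne.symm hij)
        ((hw u' hu').2.1 j hj) ((hw u hu).2.1 i hi)
      rw [T10_cd_comm L j i] at e2
      omega)
    hsep h5
  have hone : ∀ u ∈ T, r u * k ≤ 4800 * ∑ i ∈ Finset.range L, w u i := by
    intro u hu
    have h1 := (hw u hu).2.2.1
    have h2 : r u * k ≤ 1200 * z u * k := Nat.mul_le_mul_right _ (hb u hu).2.2.1
    have h3 : 1200 * z u * k = 1200 * (z u * k) := Nat.mul_assoc _ _ _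
    omega
  have hall : (∑ u ∈ T, r u) * k ≤ 4800 * ∑ u ∈ T, ∑ i ∈ Finset.range L, w u i := by
    rw [Finset.sum_mul, Finset.mul_sum]
    exact Finset.sum_le_sum hone
  have hfin : k * a ≤ k * (401 * ∑ u ∈ T, r u) := Nat.mul_le_mul_left _ hsum
  have heq : k * (401 * ∑ u ∈ T, r u) = 401 * ((∑ u ∈ T, r u) * k) := by ring
  omega

end LB
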