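import Pool.Agent.Lib.MP_6bc8af_co.Mg.G011

/-! TASK LB T11 of MP_6bc8af_co: a long run of unmarked indices (natural numbers only). -/

set_option autoImplicit false

open Classical

namespace LB

/-- PROOF. Let `a = (L - 1) / m`, so `m * a ≤ L - 1` and `L ≤ m * (a + 1)`, `a < L`. Suppose that for every `b < L` some `i < a` has `M ((b + i) % L)`. Double counting of the pairs `(b, i)`,
`b < L`, `i < a`, with `M ((b + i) % L)`: at least `L` of them; on the other hand for fixed `i` the map `b ↦ (b + i) % L` is a bijection of `range L` (injective: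
`Nat.ModEq` cancellation), so there are exactly `m` values of `b`; in total `m * a ≤ L - 1 < L`: contradiction. -/
theorem long_run (L m : ℕ) (M : ℕ → Prop) (hL : 1 ≤ L) (hm : 1 ≤ m)
    (hM : ((Finset.range L).filter (fun i => M i)).card = m) :
    ∃ b a : ℕ, a < L ∧ L ≤ m * (a + 1) ∧ ∀ i < a, ¬ M ((b + i) % L) := by
  have ha : m * ((L - 1) / m) ≤ L - 1 := Nat.mul_div_le _ _
  have ha' : L - 1 < m * ((L - 1) / m + 1) := Nat.lt_mul_div_succ _ (by omega)
  have ha2 : (L - 1) / m ≤ L - 1 := Nat.div_le_self _ _
  have key : ∃ b, ∀ i < (L - 1) / m, ¬ M ((b + i) % L) := by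
    by_contra hcon
    push Not at hcon
    have hsub : Finset.range L ⊆ (Finset.range ((L - 1) / m)).biUnion
        (fun i => (Finset.range L).filter (fun b => M ((b + i) % L))) := by
      intro b hb
      obtain ⟨i, hi, hMi⟩ := hcon b
      rw [Finset.mem_biUnion]
      exact ⟨i, Finset.mem_range.2 hi, Finset.mem_filter.2 ⟨hb, hMi⟩⟩
    have h1 := Finset.card_le_card hsub
    have h2 : ((Finset.range ((L - 1) / m)).biUnion
        (fun i => (Finset.range L).filter (fun b => M ((b + i) % L)))).card ≤
        (Finset.range ((L - 1) / m)).card * m := by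
      apply Finset.card_biUnion_le_card_mul
      intro i _
      rw [← hM]
      apply Finset.card_le_card_of_injOn (fun b => (b + i) % L)
      · intro b hb
        have hb' := Finset.mem_filter.1 (Finset.mem_coe.1 hb)
        apply Finset.mem_coe.2
        apply Finset.mem_filter.2
        exact ⟨Finset.mem_range.2 (Nat.mod_lt _ (by omega)), hb'.2⟩
      · intro b hb b' hb' hbb
        have h3 := Finset.mem_range.1 (Finset.mem_filter.1 (Finset.mem_coe.1 hb)).1
        have h4 := Finset.mem_range.1 (Finset.mem_filter.1 (Finset.mem_coe.1 hb')).1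
        have h5 : b + i ≡ b' + i [MOD L] := hbb
        exact Nat.ModEq.eq_of_lt_of_lt (Nat.ModEq.add_right_cancel' i h5) h3 h4
    rw [Finset.card_range] at h1 h2
    have h3 : (L - 1) / m * m = m * ((L - 1) / m) := Nat.mul_comm _ _
    omega
  obtain ⟨b, hb⟩ := key
  exact ⟨b, (L - 1) / m, by omega, by omega, hb⟩

end LB
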